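import Pool.Agent.Run7.h141.Main

/-!
# Cyclic branched covers along a rationally fibered knot need not be fillable

There is a weakly fillable closed contact 3-manifold, supported by a rational open book with connected
binding `K`, all of whose cyclic branched covers along `K` of even order are overtwisted.
-/

open Run7.h141

theorem Pool.Agent.Results.MP_6fcedc_gt.EvenCovers.result :
    ∃ (Y : ClosedThreeManifold (ℂ × ℂ) ℝ) (C : ContactForm Y) (B : RationalOpenBook Y Unit),
      Supports C B ∧ Nonempty (WeakFilling C (ℂ × ℂ × ℂ) ℂ) ∧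
      ∀ k : ℕ, 0 < k →
        ∃ (Y' : ClosedThreeManifold (ℂ × ℂ) ℝ) (C' : ContactForm Y')
          (B' : RationalOpenBook Y' (Fin 2)) (P : ℂ × ℂ → ℂ × ℂ),
          Supports C' B' ∧ IsCyclicBranchedCover (2 * k) C B C' B' P ∧ Overtwisted C' :=
  main
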